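import Pool.Agent.Helper63.PG.Alg

/-! Project PG (MP_cde131_lc), module CMM -/

set_option autoImplicit false

namespace Pool.Agent.Helper64.PG

open Pool.Agent.Helper63.PG Pool.Agent.Helper63.OC Pool.Agent.Helper24.OCM

open Classical in
theorem col_mem_CMM (d K k n : ℕ)
    (hl : ∀ (G : SimpleGraph ℕ) (v : ℕ), v < n → lab K k G v ∈ LabF d K k n) :
    ∀ (w : ℕ) (G : SimpleGraph ℕ) (v : ℕ), v < n → col K k w G v ∈ ColF d K k n (w - 1)
  | 0, _, _, _ => by
    show _ ∈ ColF d K k n 0
    rw [col, ColF]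
    exact Finset.mem_singleton_self _
  | 1, _, _, _ => by
    show _ ∈ ColF d K k n 0
    rw [col, ColF]
    exact Finset.mem_singleton_self _
  | (w + 2), G, v, hv => by
    show _ ∈ ColF d K k n (w + 1)
    rw [col, ColF]
    have ih := col_mem_CMM d K k n hl (w + 1) (Gm K k G) v hv
    have h1 := fcol_mem n v hv k (mono (G3 K k G) (col K k (w + 1) (Gm K k G)))
    refine Finset.mem_image.2 ⟨((lab K k G v,
      fcol k (mono (G3 K k G) (col K k (w + 1) (Gm K k G))) v), col K k (w + 1) (Gm K k G) v),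
      ?_, rfl⟩
    rw [Finset.mem_product, Finset.mem_product]
    exact ⟨⟨hl G v hv, h1⟩, ih⟩

open Classical in
theorem hCMM (d K k n : ℕ)
    (hl : ∀ (G : SimpleGraph ℕ) (v : ℕ), v < n → lab K k G v ∈ LabF d K k n) :
    (∀ (w : ℕ) (G : SimpleGraph ℕ) (v : ℕ), v < n → col K k w G v ∈ ColF d K k n (w - 1)) ∧
    (∀ m, (ColF d K k n m).card ≤
      (d * (Nat.log 2 n + 1) * (4 * K ^ 2) * (Nat.log 2 n + 2) * rr d * (k + 1) *
        (2 * (Nat.log 2 n + 1)) ^ (k - 1)) ^ m) := by
  refine ⟨col_mem_CMM d K k n hl, ?_⟩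
  have hL : (LabF d K k n).card =
      d * (Nat.log 2 n + 1) * (4 * K ^ 2) * (Nat.log 2 n + 2) * rr d * (k + 1) := by
    unfold LabF
    rw [Finset.card_product, Finset.card_product, Finset.card_product, Finset.card_product,
      Finset.card_product, Finset.card_range, Finset.card_range, Finset.card_range,
      Finset.card_range, Finset.card_range, Finset.card_range]
    ring
  have hF : (F2 n (k - 1)).card ≤ (2 * (Nat.log 2 n + 1)) ^ (k - 1) := by
    rw [← card_T2]
    exact card_F2 n (k - 1)
  intro m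
  induction m with
  | zero =>
    rw [ColF, Finset.card_singleton, pow_zero]
  | succ m ih =>
    rw [ColF]
    refine Finset.card_image_le.trans ?_
    rw [Finset.card_product, Finset.card_product, pow_succ, mul_comm]
    apply Nat.mul_le_mul ih
    rw [hL]
    exact Nat.mul_le_mul_left _ hF

end Pool.Agent.Helper64.PG
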