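import Pool.Agent.Helper63.PG.Alg

/-! Project PG (MP_cde131_lc), module LMM -/

set_option autoImplicit false

namespace Pool.Agent.Helper64.PG

open Pool.Agent.Helper63.PG Pool.Agent.Helper63.OC Pool.Agent.Helper24.OCM

theorem rr_le {i j : ℕ} (h : i ≤ j) : rr i ≤ rr j := by
  induction h with
  | refl => exact le_rfl
  | step _ ih =>
    refine ih.trans ?_
    rw [rr]
    omega

theorem kc_le (k : ℕ) (G : SimpleGraph ℕ) (τ w : ℕ) : kc k G τ w ≤ k := by
  unfold kc
  split_ifs with h
  · exact (h.some w).isLt.le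
  · exact Nat.zero_le k

theorem cc_le (k : ℕ) (G : SimpleGraph ℕ) (x τ v : ℕ) : cc k G x τ v ≤ k := by
  by_cases h : {c | ∃ w, w ≤ τ ∧ G.Adj v w ∧ nr G τ x w (lay G x τ v) ∧ kc k G τ w = c}.Nonempty
  · obtain ⟨w, _, _, _, hw⟩ := Nat.sInf_mem h
    have h2 : kc k G τ w = cc k G x τ v := hw
    rw [← h2]
    exact kc_le k G τ w
  · rw [Set.not_nonempty_iff_eq_empty] at h
    have h2 : cc k G x τ v = 0 := by
      unfold cc
      rw [h, Nat.sInf_empty]
    rw [h2]
    exact Nat.zero_le k

theorem hLMM {d K k n : ℕ} (hd : 0 < d) {G : SimpleGraph ℕ} {v : ℕ} (hv : v < n)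
    (h1 : ci K G v < d) (h2 : kap K G v < 4 * K ^ 2)
    (h3 : hasp (H1 K G) v → te (H1 K G) v ≤ Nat.log 2 v)
    (h4 : hasp (H1 K G) v → Vs K k G v) : lab K k G v ∈ LabF d K k n := by
  have hcj : cj K G v ≤ Nat.log 2 n := by
    unfold cj
    apply Nat.log_mono_right
    calc (bal G v (rr (ci K G v))).ncard ≤ (Set.Iic v).ncard :=
          Set.ncard_le_ncard (bal_sub G v _) (Set.finite_Iic v)
      _ = v + 1 := by
          have h5 : (Set.Iic v) = ((Finset.Iic v : Finset ℕ) : Set ℕ) := by
            rw [Finset.coe_Iic]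
          rw [h5, Set.ncard_coe_finset, Nat.card_Iic]
      _ ≤ n := hv
  have hlv : Nat.log 2 v ≤ Nat.log 2 n := Nat.log_mono_right hv.le
  have hl2 : lab2 (H1 K G) v < Nat.log 2 n + 2 := by
    unfold lab2
    split_ifs with h
    · have := h3 h
      omega
    · omega
  have hrd : 0 < rr d := by
    obtain ⟨e, rfl⟩ : ∃ e, d = e + 1 := ⟨d - 1, by omega⟩
    rw [rr]
    omega
  unfold LabF
  rw [Finset.mem_product, Finset.mem_product, Finset.mem_product, Finset.mem_product,
    Finset.mem_product]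
  refine ⟨⟨⟨?_, ?_⟩, ?_⟩, ?_, ?_, ?_⟩
  · exact Finset.mem_range.2 h1
  · exact Finset.mem_range.2 (by
      show cj K G v < _
      omega)
  · exact Finset.mem_range.2 h2
  · exact Finset.mem_range.2 hl2
  · rw [Finset.mem_range]
    by_cases h : hasp (H1 K G) v
    · have h5 : (lab K k G v).2.2.1 = lay G (anc K G v) (tt K G v) v := by
        unfold lab
        rw [if_pos h]
      rw [h5]
      have h6 := (h4 h).layle
      have h7 : rr (ci K G v + 1) ≤ rr d := rr_le h1
      rw [rr] at h7
      omega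
    · have h5 : (lab K k G v).2.2.1 = 0 := by
        unfold lab
        rw [if_neg h]
      rw [h5]
      exact hrd
  · rw [Finset.mem_range]
    by_cases h : hasp (H1 K G) v
    · have h5 : (lab K k G v).2.2.2 = cc k G (anc K G v) (tt K G v) v := by
        unfold lab
        rw [if_pos h]
      rw [h5]
      have := cc_le k G (anc K G v) (tt K G v) v
      omega
    · have h5 : (lab K k G v).2.2.2 = 0 := by
        unfold lab
        rw [if_neg h]
      rw [h5]
      omega

end Pool.Agent.Helper64.PG
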