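import Pool.Agent.Helper63.PG.Alg

/-! Project PG (MP_cde131_lc), module OHL -/

set_option autoImplicit false

namespace Pool.Agent.Helper64.PG

open Pool.Agent.Helper63.PG Pool.Agent.Helper63.OC Pool.Agent.Helper24.OCM

theorem hol_ne_OHL {V : Type*} {G : SimpleGraph V} {f : ℕ → V} {L : ℕ} (h5 : 5 ≤ L)
    (hf : Hol G f L) {i j : ℕ} (hij : i < j) (hj : j < L) : f i ≠ f j := by
  intro h
  have hnadj : ¬ G.Adj (f i) (f j) := by
    rw [h]
    exact G.loopless.irrefl _
  have h1 : ¬ (j = i + 1 ∨ (i = 0 ∧ j + 1 = L)) := fun h' => hnadj ((hf i j hij hj).2 h')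
  have h2 : G.Adj (f i) (f (i + 1)) := (hf i (i + 1) (by omega) (by omega)).2 (Or.inl rfl)
  rw [h] at h2
  have h3 := (hf (i + 1) j (by omega) hj).1 h2.symm
  have hj2 : j = i + 2 := by omega
  by_cases hL : j + 1 < L
  · have h4 : G.Adj (f j) (f (j + 1)) := (hf j (j + 1) (by omega) hL).2 (Or.inl rfl)
    rw [← h] at h4
    have h6 := (hf i (j + 1) (by omega) hL).1 h4
    omega
  · have h4 : G.Adj (f 0) (f j) := (hf 0 j (by omega) hj).2 (Or.inr ⟨rfl, by omega⟩)
    rw [← h] at h4
    have h6 := (hf 0 i (by omega) (by omega)).1 h4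
    omega

theorem cyc_adj_OHL {L : ℕ} {a b : Fin L} (hab : a.val < b.val) :
    (SimpleGraph.cycleGraph L).Adj a b ↔ b.val = a.val + 1 ∨ (a.val = 0 ∧ b.val + 1 = L) := by
  rw [SimpleGraph.cycleGraph_adj']
  have h1 : (a - b).val = L + a.val - b.val := Fin.coe_sub_iff_lt.2 hab
  have h2 : (b - a).val = b.val - a.val := Fin.sub_val_of_le (le_of_lt hab)
  rw [h1, h2]
  have := a.isLt
  have := b.isLt
  omega

theorem hOHL {n : ℕ} (G : SimpleGraph (Fin n))
    (hG : ∀ L : ℕ, Odd L → 5 ≤ L → IsEmpty (SimpleGraph.cycleGraph L ↪g G)) : NOH (liftG G) := by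
  intro L hL h5 f hf
  have hlt : ∀ i, i < L → f i < n := by
    intro i hi
    by_cases h : i + 1 < L
    · have h1 : (liftG G).Adj (f i) (f (i + 1)) := (hf i (i + 1) (by omega) h).2 (Or.inl rfl)
      exact h1.1
    · have h1 : (liftG G).Adj (f 0) (f i) := (hf 0 i (by omega) hi).2 (Or.inr ⟨rfl, by omega⟩)
      exact h1.2.1
  have key : ∀ a b : Fin L, a.val < b.val →
      (G.Adj ⟨f a.val, hlt a.val a.isLt⟩ ⟨f b.val, hlt b.val b.isLt⟩ ↔
        (SimpleGraph.cycleGraph L).Adj a b) := by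
    intro a b hab
    rw [cyc_adj_OHL hab, ← hf a.val b.val hab b.isLt]
    exact ⟨fun h => ⟨_, _, h⟩, fun h => h.2.2⟩
  refine (hG L hL h5).false ⟨⟨fun i => ⟨f i.val, hlt i.val i.isLt⟩, ?_⟩, ?_⟩
  · intro a b hab
    have hab' : f a.val = f b.val := congrArg Fin.val hab
    by_contra hne
    rcases Nat.lt_or_ge a.val b.val with h | h
    · exact hol_ne_OHL h5 hf h b.isLt hab'
    · have h' : b.val < a.val := by
        rcases h.lt_or_eq with h | h
        · exact h
        · exact absurd (Fin.ext h.symm) hne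
      exact hol_ne_OHL h5 hf h' a.isLt hab'.symm
  · intro a b
    show G.Adj _ _ ↔ _
    rcases Nat.lt_trichotomy a.val b.val with h | h | h
    · exact key a b h
    · have hab : a = b := Fin.ext h
      subst hab
      exact ⟨fun h => absurd h (G.loopless.irrefl _),
        fun h => absurd h ((SimpleGraph.cycleGraph L).loopless.irrefl _)⟩
    · rw [G.adj_comm, (SimpleGraph.cycleGraph L).adj_comm]
      exact key b a h

end Pool.Agent.Helper64.PG
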