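import Pool.Agent.Helper63.PG.Alg

/-! Project PG (MP_cde131_lc), module LO2 -/

set_option autoImplicit false

namespace Pool.Agent.Helper64.PG

open Pool.Agent.Helper63.PG Pool.Agent.Helper63.OC Pool.Agent.Helper24.OCM

theorem hLO2 {H : SimpleGraph ℕ} {s : ℕ} :
    (∀ v ≤ s, (hasp (pre H s) v ↔ hasp H v)) ∧ (∀ v ≤ s, fn (pre H s) v = fn H v) ∧
    (∀ v ≤ s, te (pre H s) v = te H v) ∧ (∀ v ≤ s, tau (pre H s) v = tau H v) ∧
    (∀ v ≤ s, lab2 (pre H s) v = lab2 H v) := by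
  have key : ∀ v ≤ s, ∀ u < v, ((pre H s).Adj v u ↔ H.Adj v u) := by
    intro v hv u hu
    rw [pre_adj]
    exact ⟨fun h => h.2.2, fun h => ⟨hv, by omega, h⟩⟩
  have h1 : ∀ v ≤ s, (hasp (pre H s) v ↔ hasp H v) := by
    intro v hv
    unfold hasp
    constructor
    · rintro ⟨u, hu, h⟩
      exact ⟨u, hu, (key v hv u hu).1 h⟩
    · rintro ⟨u, hu, h⟩
      exact ⟨u, hu, (key v hv u hu).2 h⟩
  have h2 : ∀ v ≤ s, fn (pre H s) v = fn H v := by
    intro v hv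
    unfold fn
    congr 1
    ext u
    constructor
    · rintro ⟨hu, h⟩
      exact ⟨hu, (key v hv u hu).1 h⟩
    · rintro ⟨hu, h⟩
      exact ⟨hu, (key v hv u hu).2 h⟩
  have h3 : ∀ v ≤ s, te (pre H s) v = te H v := by
    intro v hv
    unfold te
    rw [h2 v hv]
  have h4 : ∀ v ≤ s, tau (pre H s) v = tau H v := by
    intro v hv
    unfold tau
    rw [h2 v hv, h3 v hv]
  refine ⟨h1, h2, h3, h4, ?_⟩
  intro v hv
  unfold lab2
  by_cases h : hasp H v
  · rw [if_pos h, if_pos ((h1 v hv).2 h), h3 v hv]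
  · rw [if_neg h, if_neg (fun h' => h ((h1 v hv).1 h'))]

end Pool.Agent.Helper64.PG
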